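import Pool.Agent.Lib.MP_a3a010_al.Main

/-!
# Couplings of subgroups of finite index and of products; amplification

`hasIndex_sub`: a subgroup `S` of finite index in `G` has a coupling with `G` of index `[G : S]`.
`HasIndex.prod`: a coupling between `G` and `H` gives one of the same index between `G × K` and
`H × K`. `amplify`: the subgroups of index `m` of `G × F₂` which are kernels of homomorphisms
`G × F₂ → F₂ → ℤ/m` turn a coupling of index `d = (p/q) c` between `G` and `H` into couplings of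
index `c` between groups whose values of `ρ` are `- q n ρ(G)` and `- p n ρ(H)`, `n` arbitrary.
-/

namespace Pool.Agent.Lib.MP_a3a010_al

open MeasureTheory Set

private theorem Amp_count {Ω : Type} [MeasurableSpace Ω] [DiscreteMeasurableSpace Ω] (e : Ω ≃ Ω) :
    MeasurePreserving (fun x => e x) (Measure.count : Measure Ω) Measure.count := by
  refine ⟨Measurable.of_discrete, ?_⟩
  ext s hs
  rw [Measure.map_apply Measurable.of_discrete hs, Measure.count_apply .of_discrete, Measure.count_apply hs]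
  have h1 : (fun x => e x) ⁻¹' s = e.symm '' s := (e.symm.image_eq_preimage_symm s).symm
  rw [h1, e.symm.injective.encard_image]

/-- A subgroup of finite index. -/
theorem hasSIndex_sub {G : Type} [Group G] [Countable G] (S : Subgroup G) (hn : S.index ≠ 0) :
    HasSIndex S G (S.index : ℝ) := by
  let m : MeasurableSpace G := ⊤
  have hd : DiscreteMeasurableSpace G := ⟨fun _ => trivial⟩
  have hfi : S.FiniteIndex := ⟨hn⟩
  obtain ⟨T, hT, -⟩ := Subgroup.exists_isComplement_right S 1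
  let act : MulAction (S × G) G :=
    { smul := fun a x => a.1 * x * a.2⁻¹
      one_smul := fun x => by
        show ((1 : S) : G) * x * 1⁻¹ = x
        simp
      mul_smul := fun a b x => by
        show ((a.1 * b.1 : S) : G) * x * (a.2 * b.2)⁻¹ = a.1 * (b.1 * x * b.2⁻¹) * a.2⁻¹
        rw [Subgroup.coe_mul]
        group }
  have hs : ∀ (a : S × G) (x : G), a • x = a.1 * x * a.2⁻¹ := fun _ _ => rfl
  have hcT : (Measure.count : Measure G) T = (S.index : ENNReal) := by
    rw [Measure.count_apply .of_discrete, hT.encard_right]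
    rfl
  have hc1 : (Measure.count : Measure G) {1} = 1 := Measure.count_singleton 1
  refine ⟨G, m, inferInstance, act, Measure.count, T, {1}, ⟨?_, fun a => ?_, .of_discrete, .of_discrete, fun x => ?_,
    fun x => ?_, ?_, ?_⟩, ?_⟩
  · intro h0
    rw [h0] at hc1
    simp at hc1
  · exact Amp_count (MulAction.toPerm a)
  · obtain ⟨t, ht, hu⟩ := Subgroup.isComplement_iff_existsUnique_mul_inv_mem.1 hT x
    refine ⟨⟨x * (t : G)⁻¹, ht⟩⁻¹, ?_, fun g hg => ?_⟩
    · show (((⟨x * (t : G)⁻¹, ht⟩ : S)⁻¹, 1) : S × G) • x ∈ T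
      rw [hs]
      have : (((⟨x * (t : G)⁻¹, ht⟩ : S)⁻¹ : S) : G) * x * (1 : G)⁻¹ = t := by
        rw [Subgroup.coe_inv]
        group
      rw [this]
      exact t.2
    · have hg' : (g : G) * x * (1 : G)⁻¹ ∈ T := hg
      have h1 := hu ⟨(g : G) * x * (1 : G)⁻¹, hg'⟩ (by
        have h3 : x * ((g : G) * x * (1 : G)⁻¹)⁻¹ = (g⁻¹ : S) := by
          rw [Subgroup.coe_inv]
          group
        show x * ((g : G) * x * (1 : G)⁻¹)⁻¹ ∈ S
        rw [h3]
        exact (g⁻¹ : S).2)
      have h2 : (g : G) * x * (1 : G)⁻¹ = t := congrArg Subtype.val h1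
      apply Subtype.ext
      rw [Subgroup.coe_inv]
      show (g : G) = (x * (t : G)⁻¹)⁻¹
      rw [← h2]
      group
  · refine ⟨x, ?_, fun b hb => ?_⟩
    · show ((1, x) : S × G) • x ∈ ({1} : Set G)
      rw [hs, mem_singleton_iff]
      show ((1 : S) : G) * x * x⁻¹ = 1
      rw [Subgroup.coe_one]
      group
    · have hb' : ((1 : S) : G) * x * b⁻¹ = 1 := hb
      rw [Subgroup.coe_one, one_mul] at hb'
      exact (mul_inv_eq_one.1 hb').symm
  · rw [hcT]
    exact ENNReal.natCast_ne_top _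
  · rw [hc1]
    exact ENNReal.one_ne_top
  · rw [hcT, hc1, ENNReal.toReal_natCast, ENNReal.toReal_one, div_one]

/-- Products with a countable group. -/
theorem HasSIndex.prod {G H : Type} [Group G] [Group H] [Countable G] [Countable H] {c : ℝ}
    (h : HasSIndex G H c) (K : Type) [Group K] [Countable K] : HasSIndex (G × K) (H × K) c := by
  obtain ⟨Ω, i1, i2, i3, μ, X, Y, hc, rfl⟩ := h
  have s1 := hc.sigmaFinite
  let m : MeasurableSpace K := ⊤
  have hd : DiscreteMeasurableSpace K := ⟨fun _ => trivial⟩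
  let act : MulAction ((G × K) × (H × K)) (Ω × K) :=
    { smul := fun a z => (((a.1.1, a.2.1) : G × H) • z.1, a.1.2 * z.2 * a.2.2⁻¹)
      one_smul := fun z => by
        refine Prod.ext (one_smul (G × H) z.1) ?_
        show (1 : K) * z.2 * 1⁻¹ = z.2
        simp
      mul_smul := fun a b z => by
        refine Prod.ext ?_ ?_
        · show ((a.1.1 * b.1.1, a.2.1 * b.2.1) : G × H) • z.1 =
            ((a.1.1, a.2.1) : G × H) • ((b.1.1, b.2.1) : G × H) • z.1
          rw [smul_smul, Prod.mk_mul_mk]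
        · show (a.1.2 * b.1.2) * z.2 * (a.2.2 * b.2.2)⁻¹ = a.1.2 * (b.1.2 * z.2 * b.2.2⁻¹) * a.2.2⁻¹
          group }
  have hs : ∀ (a : (G × K) × (H × K)) (z : Ω × K),
      a • z = (((a.1.1, a.2.1) : G × H) • z.1, a.1.2 * z.2 * a.2.2⁻¹) := fun _ _ => rfl
  have hc1 : (Measure.count : Measure K) {1} = 1 := Measure.count_singleton 1
  let e : K → K → K ≃ K := fun k l => (Equiv.mulLeft k).trans (Equiv.mulRight l⁻¹)
  have he : ∀ k l x, e k l x = k * x * l⁻¹ := fun _ _ _ => rfl
  have hX : (μ.prod (Measure.count : Measure K)) (X ×ˢ {1}) = μ X := by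
    rw [Measure.prod_prod, hc1, mul_one]
  have hY : (μ.prod (Measure.count : Measure K)) (Y ×ˢ {1}) = μ Y := by
    rw [Measure.prod_prod, hc1, mul_one]
  have pX := hc.posX
  refine ⟨Ω × K, inferInstance, inferInstance, act, μ.prod Measure.count, X ×ˢ {1}, Y ×ˢ {1},
    ⟨?_, fun a => ?_, hc.mX.prod .of_discrete, hc.mY.prod .of_discrete, fun z => ?_, fun z => ?_, ?_, ?_⟩, ?_⟩
  · intro h0
    rw [h0] at hX
    simp only [Measure.coe_zero, Pi.zero_apply] at hX
    exact pX hX.symm
  · exact (hc.mp (a.1.1, a.2.1)).prod (Amp_count (e a.1.2 a.2.2))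
  · obtain ⟨g, hg, gu⟩ := hc.fX z.1
    refine ⟨(g, z.2⁻¹), ?_, ?_⟩
    · show (((g, z.2⁻¹), 1) : (G × K) × (H × K)) • z ∈ X ×ˢ {1}
      rw [hs]
      refine ⟨hg, ?_⟩
      show z.2⁻¹ * z.2 * (1 : K)⁻¹ = 1
      simp
    · rintro ⟨g', k'⟩ hk
      obtain ⟨k1, k2⟩ : ((g', 1) : G × H) • z.1 ∈ X ∧ k' * z.2 * (1 : K)⁻¹ = 1 := hk
      refine Prod.ext (gu g' k1) ?_
      rw [inv_one, mul_one] at k2
      exact eq_inv_of_mul_eq_one_left k2
  · obtain ⟨g, hg, gu⟩ := hc.fY z.1
    refine ⟨(g, z.2), ?_, ?_⟩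
    · show ((1, (g, z.2)) : (G × K) × (H × K)) • z ∈ Y ×ˢ {1}
      rw [hs]
      refine ⟨hg, ?_⟩
      show (1 : K) * z.2 * z.2⁻¹ = 1
      simp
    · rintro ⟨g', k'⟩ hk
      obtain ⟨k1, k2⟩ : ((1, g') : G × H) • z.1 ∈ Y ∧ (1 : K) * z.2 * k'⁻¹ = 1 := hk
      refine Prod.ext (gu g' k1) ?_
      rw [one_mul] at k2
      exact (mul_inv_eq_one.1 k2).symm
  · rw [hX]
    exact hc.tX
  · rw [hY]
    exact hc.tY
  · rw [hX, hY]

theorem hasIndex_sub {G : Type} [Group G] [Countable G] (S : Subgroup G) (hn : S.index ≠ 0) :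
    HasIndex S G (S.index : ℝ) := (hasSIndex_sub S hn).hasIndex

theorem HasIndex.prod {G H : Type} [Group G] [Group H] [Countable G] [Countable H] {c : ℝ}
    (h : HasIndex G H c) (K : Type) [Group K] [Countable K] : HasIndex (G × K) (H × K) c :=
  ((hasSIndex_of h).prod K).hasIndex

/-- A homomorphism of the free group of rank two onto `ℤ/m`. -/
noncomputable def cyc (m : ℕ) : FreeGroup (Fin 2) →* Multiplicative (ZMod m) :=
  FreeGroup.lift fun _ => Multiplicative.ofAdd 1

theorem cyc_surj (m : ℕ) : Function.Surjective (cyc m) := by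
  intro x
  obtain ⟨k, hk⟩ := ZMod.intCast_surjective (Multiplicative.toAdd x)
  refine ⟨FreeGroup.of 0 ^ k, ?_⟩
  rw [map_zpow]
  show (FreeGroup.lift (fun _ => Multiplicative.ofAdd (1 : ZMod m)) (FreeGroup.of 0)) ^ k = x
  rw [FreeGroup.lift_apply_of]
  apply Multiplicative.toAdd.injective
  rw [toAdd_zpow, toAdd_ofAdd, ← hk]
  simp

/-- The kernel of `G × F₂ → F₂ → ℤ/m`. -/
noncomputable def sub2 (G : Type) [Group G] (m : ℕ) : Subgroup (G × FreeGroup (Fin 2)) :=
  ((cyc m).comp (MonoidHom.snd G (FreeGroup (Fin 2)))).ker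

theorem sub2_index (G : Type) [Group G] (m : ℕ) [NeZero m] : (sub2 G m).index = m := by
  have h : Function.Surjective ((cyc m).comp (MonoidHom.snd G (FreeGroup (Fin 2)))) :=
    (cyc_surj m).comp fun y => ⟨(1, y), rfl⟩
  rw [sub2, Subgroup.index_ker, MonoidHom.range_eq_top.2 h]
  rw [Nat.card_congr (Subgroup.topEquiv (G := Multiplicative (ZMod m))).toEquiv]
  exact Nat.card_zmod m

end Pool.Agent.Lib.MP_a3a010_al
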