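import Pool.Agent.Lib.MP_a3a010_al.Amp

/-!
# Amplification: proportionality up to a sublinear error is exact
-/

namespace Pool.Agent.Lib.MP_a3a010_al

open Set Filter

/-- Properties of a class `𝒜` of groups and of two real-valued functions `ρ`, `N` of groups. -/
structure TorsionLike (𝒜 : ∀ (G : Type) [Group G], Prop) (ρ N : ∀ (G : Type) [Group G], ℝ) : Prop where
  /-- `𝒜` is closed under subgroups of finite index, `ρ` is multiplicative and `N` submultiplicative. -/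
  sub : ∀ (G : Type) [Group G] [Countable G], 𝒜 G → ∀ S : Subgroup G, S.index ≠ 0 →
    𝒜 S ∧ ρ S = S.index * ρ G ∧ N S ≤ S.index * N G
  /-- `𝒜` is closed under products with the free group of rank two, and `ρ` changes its sign. -/
  free : ∀ (G : Type) [Group G] [Countable G], 𝒜 G →
    𝒜 (G × FreeGroup (Fin 2)) ∧ ρ (G × FreeGroup (Fin 2)) = - ρ G

variable {𝒜 : ∀ (G : Type) [Group G], Prop} {ρ N : ∀ (G : Type) [Group G], ℝ}

private theorem Amp_lim {φ : ℝ → ℝ} (hφ : Tendsto (fun x => φ x / x) atTop (nhds 0)) {w a M : ℝ} (hw : 0 < w)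
    (h : ∀ n : ℕ, 0 < n → n * a ≤ n * M + φ (n * w)) : a ≤ M := by
  by_contra hlt
  push Not at hlt
  have h1 : Tendsto (fun n : ℕ => (n : ℝ) * w) atTop atTop :=
    tendsto_natCast_atTop_atTop.atTop_mul_const hw
  have h2 := hφ.comp h1
  have h3 : ∀ᶠ n : ℕ in atTop, φ ((n : ℝ) * w) / ((n : ℝ) * w) < (a - M) / w :=
    h2.eventually (gt_mem_nhds (div_pos (sub_pos.2 hlt) hw))
  obtain ⟨n, hn, hn0⟩ := (h3.and (eventually_gt_atTop 0)).exists
  have hnp : (0 : ℝ) < n := Nat.cast_pos.2 hn0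
  have h4 := h n hn0
  rw [div_lt_div_iff₀ (mul_pos hnp hw) hw] at hn
  nlinarith [mul_le_mul_of_nonneg_right h4 hw.le]

theorem amp_neg (hP : TorsionLike 𝒜 ρ N) {I : Set ℝ} {φ : ℝ → ℝ}
    (hm : Monotone φ) (hφ : Tendsto (fun x => φ x / x) atTop (nhds 0))
    (h : ∀ (G H : Type) [Group G] [Group H] [Countable G] [Countable H], 𝒜 G → 𝒜 H → ∀ c ∈ I, HasIndex G H c →
      ρ G ≤ max (c * ρ H) 0 + φ (N G + N H))
    (G H : Type) [Group G] [Group H] [Countable G] [Countable H] (hG : 𝒜 G) (hH : 𝒜 H) {p q : ℕ} (hp : 0 < p)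
    (hq : 0 < q) {c : ℝ} (hc : c ∈ I) (hi : HasIndex G H ((p : ℝ) / q * c)) :
    - ρ G ≤ max (-((p : ℝ) / q * c * ρ H)) 0 := by
  have hp' : (0 : ℝ) < p := Nat.cast_pos.2 hp
  have hq' : (0 : ℝ) < q := Nat.cast_pos.2 hq
  obtain ⟨g1, g2⟩ := hP.free G hG
  obtain ⟨k1, k2⟩ := hP.free H hH
  obtain ⟨w, hw, hwl⟩ : ∃ w : ℝ, 0 < w ∧ q * N (G × FreeGroup (Fin 2)) + p * N (H × FreeGroup (Fin 2)) ≤ w :=
    ⟨_, lt_max_of_lt_left one_pos, le_max_right 1 _⟩
  have key : ∀ n : ℕ, 0 < n → (n : ℝ) * (- (q * ρ G)) ≤ n * max (-(c * p * ρ H)) 0 + φ (n * w) := by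
    intro n hn
    have hn' : (0 : ℝ) < n := Nat.cast_pos.2 hn
    have z1 : NeZero (q * n) := ⟨(Nat.mul_pos hq hn).ne'⟩
    have z2 : NeZero (p * n) := ⟨(Nat.mul_pos hp hn).ne'⟩
    have i1 := sub2_index G (q * n)
    have i2 := sub2_index H (p * n)
    have j1 : (sub2 G (q * n)).index ≠ 0 := by rw [i1]; exact z1.out
    have j2 : (sub2 H (p * n)).index ≠ 0 := by rw [i2]; exact z2.out
    obtain ⟨s1, s2, s3⟩ := hP.sub _ g1 (sub2 G (q * n)) j1
    obtain ⟨t1, t2, t3⟩ := hP.sub _ k1 (sub2 H (p * n)) j2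
    rw [g2, i1] at s2
    rw [k2, i2] at t2
    rw [i1] at s3
    rw [i2] at t3
    have c1 := hasIndex_sub (sub2 G (q * n)) j1
    have c2 := hasIndex_sub (sub2 H (p * n)) j2
    rw [i1] at c1
    rw [i2] at c2
    have c3 := (c1.comp (hi.prod (FreeGroup (Fin 2)))).comp c2.symm
    have e : ((q * n : ℕ) : ℝ) * ((p : ℝ) / q * c) * ((p * n : ℕ) : ℝ)⁻¹ = c := by
      push_cast
      field_simp
    rw [e] at c3
    have h1 := h _ _ s1 t1 c hc c3
    have e1 : ρ (sub2 G (q * n)) = n * (- (q * ρ G)) := by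
      rw [s2]
      push_cast
      ring
    have e2 : ρ (sub2 H (p * n)) = n * (- (p * ρ H)) := by
      rw [t2]
      push_cast
      ring
    have e3 : φ (N (sub2 G (q * n)) + N (sub2 H (p * n))) ≤ φ (n * w) := by
      apply hm
      push_cast at s3 t3
      nlinarith [mul_le_mul_of_nonneg_left hwl hn'.le]
    have e4 : max (c * ρ (sub2 H (p * n))) 0 = n * max (-(c * p * ρ H)) 0 := by
      rw [e2, mul_max_of_nonneg _ _ hn'.le, mul_zero]
      congr 1
      ring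
    rw [e4, e1] at h1
    linarith
  have h1 := Amp_lim hφ hw key
  have h2 : max (-((p : ℝ) / q * c * ρ H)) 0 = max (-(c * p * ρ H)) 0 / q := by
    rw [← max_div_div_right hq'.le, zero_div]
    congr 1
    field_simp
  rw [h2, le_div_iff₀ hq']
  linarith

theorem amp_pos (hP : TorsionLike 𝒜 ρ N) {I : Set ℝ} {φ : ℝ → ℝ}
    (hm : Monotone φ) (hφ : Tendsto (fun x => φ x / x) atTop (nhds 0))
    (h : ∀ (G H : Type) [Group G] [Group H] [Countable G] [Countable H], 𝒜 G → 𝒜 H → ∀ c ∈ I, HasIndex G H c →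
      ρ G ≤ max (c * ρ H) 0 + φ (N G + N H))
    (G H : Type) [Group G] [Group H] [Countable G] [Countable H] (hG : 𝒜 G) (hH : 𝒜 H) {p q : ℕ} (hp : 0 < p)
    (hq : 0 < q) {c : ℝ} (hc : c ∈ I) (hi : HasIndex G H ((p : ℝ) / q * c)) :
    ρ G ≤ max ((p : ℝ) / q * c * ρ H) 0 := by
  obtain ⟨g1, g2⟩ := hP.free G hG
  obtain ⟨k1, k2⟩ := hP.free H hH
  have h1 := amp_neg hP hm hφ h _ _ g1 k1 hp hq hc (hi.prod (FreeGroup (Fin 2)))
  rw [g2, k2, neg_neg, mul_neg, neg_neg] at h1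
  exact h1

private theorem amplify_aux (hP : TorsionLike 𝒜 ρ N) {I : Set ℝ} (hI : ∀ c ∈ I, c⁻¹ ∈ I) {φ : ℝ → ℝ}
    (hm : Monotone φ) (hφ : Tendsto (fun x => φ x / x) atTop (nhds 0))
    (h : ∀ (G H : Type) [Group G] [Group H] [Countable G] [Countable H], 𝒜 G → 𝒜 H → ∀ c ∈ I, HasIndex G H c →
      ρ G ≤ max (c * ρ H) 0 + φ (N G + N H))
    (G H : Type) [Group G] [Group H] [Countable G] [Countable H] (hG : 𝒜 G) (hH : 𝒜 H) (r : ℚ) (c : ℝ) (hr : 0 < r)
    (hc : c ∈ I) (hi : HasIndex G H (r * c)) : ρ G = r * c * ρ H := by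
  obtain ⟨p, hp⟩ : ∃ p : ℕ, (p : ℤ) = r.num := ⟨r.num.toNat, Int.toNat_of_nonneg (Rat.num_pos.2 hr).le⟩
  have hp0 : 0 < p := by
    have := Rat.num_pos.2 hr
    omega
  have hq0 : 0 < r.den := r.den_pos
  have hr' : (r : ℝ) = (p : ℝ) / (r.den : ℝ) := by
    have h1 : (r : ℝ) = (r.num : ℝ) / (r.den : ℝ) := Rat.cast_def r
    rw [h1, ← hp, Int.cast_natCast]
  have hd := hi.pos
  have hi' := hi.symm
  rw [hr'] at hi hi' hd ⊢
  have e : ((p : ℝ) / (r.den : ℝ) * c)⁻¹ = (r.den : ℝ) / (p : ℝ) * c⁻¹ := by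
    rw [mul_inv, inv_div]
  rw [e] at hi'
  have a1 := amp_pos hP hm hφ h G H hG hH hp0 hq0 hc hi
  have a2 := amp_neg hP hm hφ h G H hG hH hp0 hq0 hc hi
  have a3 := amp_pos hP hm hφ h H G hH hG hq0 hp0 (hI c hc) hi'
  have a4 := amp_neg hP hm hφ h H G hH hG hq0 hp0 (hI c hc) hi'
  rw [← e] at a3 a4
  generalize (p : ℝ) / (r.den : ℝ) * c = d at *
  generalize ρ G = x at *
  generalize ρ H = y at *
  have hd' : 0 < d⁻¹ := inv_pos.2 hd
  rcases lt_trichotomy y 0 with hy | hy | hy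
  · have h4 : -y ≤ -(d⁻¹ * x) := by
      rcases le_max_iff.1 a4 with h5 | h5
      · exact h5
      · linarith
    have h6 : x ≤ d * y := by
      have h7 : d * (d⁻¹ * x) ≤ d * y := mul_le_mul_of_nonneg_left (by linarith) hd.le
      rwa [← mul_assoc, mul_inv_cancel₀ hd.ne', one_mul] at h7
    have h8 : -x ≤ -(d * y) := by
      rcases le_max_iff.1 a2 with h5 | h5
      · exact h5
      · nlinarith [mul_pos_of_neg_of_neg hy (neg_lt_zero.2 hd)]
    linarith
  · rw [hy, mul_zero, max_self] at a1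
    rw [hy, mul_zero, neg_zero, max_self] at a2
    rw [hy, mul_zero]
    linarith
  · have h4 : y ≤ d⁻¹ * x := by
      rcases le_max_iff.1 a3 with h5 | h5
      · exact h5
      · linarith
    have h6 : d * y ≤ x := by
      have h7 : d * y ≤ d * (d⁻¹ * x) := mul_le_mul_of_nonneg_left h4 hd.le
      rwa [← mul_assoc, mul_inv_cancel₀ hd.ne', one_mul] at h7
    have h8 : x ≤ d * y := by
      rcases le_max_iff.1 a1 with h5 | h5
      · exact h5
      · nlinarith [mul_pos hd hy]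
    linarith

/-- Exact proportionality for the pairs with an index in `ℚ_{>0} · I` is equivalent to a one-sided
inequality, with a sublinear error, for the couplings with index in `I`. -/
theorem amplify (hP : TorsionLike 𝒜 ρ N) (I : Set ℝ) (hI : ∀ c ∈ I, c⁻¹ ∈ I) :
    (∀ (G H : Type) [Group G] [Group H] [Countable G] [Countable H], 𝒜 G → 𝒜 H → ∀ (r : ℚ) (c : ℝ), 0 < r → c ∈ I →
      HasIndex G H (r * c) → ∀ d : ℝ, HasIndex G H d → ρ G = d * ρ H) ↔
    ∃ φ : ℝ → ℝ, Monotone φ ∧ Tendsto (fun x => φ x / x) atTop (nhds 0) ∧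
      ∀ (G H : Type) [Group G] [Group H] [Countable G] [Countable H], 𝒜 G → 𝒜 H → ∀ c ∈ I, HasIndex G H c →
        ρ G ≤ max (c * ρ H) 0 + φ (N G + N H) := by
  constructor
  · intro h
    refine ⟨fun _ => 0, monotone_const, by simp, ?_⟩
    intro G H _ _ _ _ hG hH c hc hi
    have h1 := h G H hG hH 1 c one_pos hc (by rw [Rat.cast_one, one_mul]; exact hi) c hi
    rw [h1, add_zero]
    exact le_max_left _ _
  · rintro ⟨φ, hm, hφ, h⟩ G H _ _ _ _ hG hH r c hr hc hi d hd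
    have h1 := amplify_aux hP hI hm hφ h G H hG hH r c hr hc hi
    by_cases hdc : d = r * c
    · rw [hdc]
      exact h1
    · have hpos := hi.pos
      have hall : {c | HasIndex G H c} = Ioi 0 := by
        rcases index_sets hi with h2 | h2
        · exfalso
          apply hdc
          have h3 : d ∈ {c | HasIndex G H c} := hd
          rw [h2.1] at h3
          exact h3
        · exact h2.1
      have h4 : HasIndex G H (((2 * r : ℚ) : ℝ) * c) := by
        have h5 : ((2 * r : ℚ) : ℝ) * c ∈ {c | HasIndex G H c} := by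
          rw [hall]
          show (0 : ℝ) < ((2 * r : ℚ) : ℝ) * c
          push_cast
          nlinarith
        exact h5
      have h6 := amplify_aux hP hI hm hφ h G H hG hH (2 * r) c (by linarith) hc h4
      push_cast at h6
      have h7 : (r : ℝ) * c * ρ H = 0 := by linarith
      have h8 : ρ H = 0 := (mul_eq_zero.1 h7).resolve_left hpos.ne'
      rw [h1, h8, mul_zero, mul_zero]

end Pool.Agent.Lib.MP_a3a010_al
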