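import Pool.Agent.Lib.MP_a3a010_al.Defs

/-!
# First properties: positivity, symmetry, sigma-finiteness
-/

namespace Pool.Agent.Lib.MP_a3a010_al

open MeasureTheory Set

variable {G H : Type} [Group G] [Group H]

/-- The fundamental domain `X` has positive measure. -/
theorem SCoupl.posX [Countable G] {Ω : Type} [MeasurableSpace Ω] [MulAction (G × H) Ω] {μ : Measure Ω} {X Y : Set Ω}
    (h : SCoupl G H μ X Y) : μ X ≠ 0 := by
  intro h0
  apply h.ne
  rw [← Measure.measure_univ_eq_zero]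
  have h1 : (univ : Set Ω) = ⋃ g : G, (fun ω : Ω => ((g, 1) : G × H) • ω) ⁻¹' X := by
    ext ω
    obtain ⟨g, hg, _⟩ := h.fX ω
    simp only [mem_univ, mem_iUnion, true_iff]
    exact ⟨g, hg⟩
  rw [h1, measure_iUnion_null_iff]
  intro g
  rw [(h.mp (g, 1)).measure_preimage h.mX.nullMeasurableSet]
  exact h0

/-- Exchange of the two groups. -/
def swapAct (G H : Type) [Group G] [Group H] (Ω : Type) [MulAction (G × H) Ω] : MulAction (H × G) Ω :=
  MulAction.compHom Ω (MulEquiv.prodComm (M := H) (N := G)).toMonoidHom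

theorem SCoupl.symm {Ω : Type} [MeasurableSpace Ω] [i : MulAction (G × H) Ω] {μ : Measure Ω} {X Y : Set Ω}
    (h : SCoupl G H μ X Y) : @SCoupl H G _ _ Ω _ (swapAct G H Ω) μ Y X := by
  letI := swapAct G H Ω
  have hs : ∀ (a : H × G) (ω : Ω), a • ω = ((a.2, a.1) : G × H) • ω := fun a ω => rfl
  refine ⟨h.ne, fun a => ?_, h.mY, h.mX, ?_, ?_, h.tY, h.tX⟩
  · exact h.mp (a.2, a.1)
  · intro ω
    exact h.fY ω
  · intro ω
    exact h.fX ω

theorem SCoupl.posY [Countable H] {Ω : Type} [MeasurableSpace Ω] [MulAction (G × H) Ω] {μ : Measure Ω} {X Y : Set Ω}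
    (h : SCoupl G H μ X Y) : μ Y ≠ 0 := by
  letI := swapAct G H Ω
  exact h.symm.posX

theorem SCoupl.sigmaFinite [Countable G] {Ω : Type} [MeasurableSpace Ω] [MulAction (G × H) Ω] {μ : Measure Ω}
    {X Y : Set Ω} (h : SCoupl G H μ X Y) : SigmaFinite μ := by
  refine Measure.sigmaFinite_of_countable (S := range fun g : G => (fun ω : Ω => ((g, 1) : G × H) • ω) ⁻¹' X)
    (countable_range _) ?_ ?_
  · rintro _ ⟨g, rfl⟩
    rw [(h.mp (g, 1)).measure_preimage h.mX.nullMeasurableSet]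
    exact lt_top_iff_ne_top.2 h.tX
  · ext ω
    obtain ⟨g, hg, _⟩ := h.fX ω
    simp only [mem_sUnion, mem_range, exists_exists_eq_and, mem_univ, iff_true]
    exact ⟨g, hg⟩

theorem HasSIndex.symm {c : ℝ} (h : HasSIndex G H c) : HasSIndex H G c⁻¹ := by
  obtain ⟨Ω, i1, i2, i3, μ, X, Y, hc, rfl⟩ := h
  exact ⟨Ω, i1, i2, swapAct G H Ω, μ, Y, X, hc.symm, by rw [inv_div]⟩

theorem HasSIndex.pos [Countable G] [Countable H] {c : ℝ} (h : HasSIndex G H c) : 0 < c := by
  obtain ⟨Ω, i1, i2, i3, μ, X, Y, hc, rfl⟩ := h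
  exact div_pos (ENNReal.toReal_pos hc.posX hc.tX) (ENNReal.toReal_pos hc.posY hc.tY)

end Pool.Agent.Lib.MP_a3a010_al
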