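import Pool.Agent.Lib.MP_a3a010_al.Quot

/-!
# Composition of measure couplings
-/

namespace Pool.Agent.Lib.MP_a3a010_al

open MeasureTheory Set

/-- The action of `H × (G × K)` on `Ω₁ × Ω₂`: `G` acts on the first, `K` on the second factor, `H` on both. -/
@[instance_reducible]
def zAct (G H K Ω₁ Ω₂ : Type) [Group G] [Group H] [Group K] [MulAction (G × H) Ω₁] [MulAction (H × K) Ω₂] :
    MulAction (H × (G × K)) (Ω₁ × Ω₂) where
  smul a z := (((a.2.1, a.1) : G × H) • z.1, ((a.1, a.2.2) : H × K) • z.2)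
  one_smul z := by
    have h1 : ((1, 1) : G × H) • z.1 = z.1 := one_smul (G × H) z.1
    have h2 : ((1, 1) : H × K) • z.2 = z.2 := one_smul (H × K) z.2
    exact Prod.ext h1 h2
  mul_smul a b z := by
    refine Prod.ext ?_ ?_
    · show ((a.2.1 * b.2.1, a.1 * b.1) : G × H) • z.1 = ((a.2.1, a.1) : G × H) • ((b.2.1, b.1) : G × H) • z.1
      rw [smul_smul, Prod.mk_mul_mk]
    · show ((a.1 * b.1, a.2.2 * b.2.2) : H × K) • z.2 = ((a.1, a.2.2) : H × K) • ((b.1, b.2.2) : H × K) • z.2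
      rw [smul_smul, Prod.mk_mul_mk]

theorem HasSIndex.comp {G H K : Type} [Group G] [Group H] [Group K] [Countable G] [Countable H] [Countable K] {c d : ℝ}
    (hc : HasSIndex G H c) (hd : HasSIndex H K d) : HasSIndex G K (c * d) := by
  obtain ⟨Ω₁, i1, i2, i3, μ₁, X₁, Y₁, h1, rfl⟩ := hc
  obtain ⟨Ω₂, j1, j2, j3, μ₂, X₂, Y₂, h2, rfl⟩ := hd
  have s1 := h1.sigmaFinite
  have s2 := h2.sigmaFinite
  let iz : MulAction (H × (G × K)) (Ω₁ × Ω₂) := zAct G H K Ω₁ Ω₂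
  have hz : ∀ (a : H × (G × K)) (z : Ω₁ × Ω₂),
      a • z = (((a.2.1, a.1) : G × H) • z.1, ((a.1, a.2.2) : H × K) • z.2) := fun a z => rfl
  have mp : ∀ a : H × (G × K), MeasurePreserving (fun z : Ω₁ × Ω₂ => a • z) (μ₁.prod μ₂) (μ₁.prod μ₂) := fun a =>
    (h1.mp (a.2.1, a.1)).prod (h2.mp (a.1, a.2.2))
  have mD : MeasurableSet (Prod.snd ⁻¹' X₂ : Set (Ω₁ × Ω₂)) := measurable_snd h2.mX
  have hD : ∀ z : Ω₁ × Ω₂, ∃! h : H, ((h, 1) : H × (G × K)) • z ∈ (Prod.snd ⁻¹' X₂ : Set (Ω₁ × Ω₂)) := fun z => h2.fX z.2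
  let iD : MulAction (G × K) (Prod.snd ⁻¹' X₂ : Set (Ω₁ × Ω₂)) := qAct hD
  have mF1 : MeasurableSet (X₁ ×ˢ X₂) := h1.mX.prod h2.mX
  have mF2 : MeasurableSet (Y₁ ×ˢ Y₂) := h1.mY.prod h2.mY
  have hF1 : ∀ z : Ω₁ × Ω₂, ∃! p : H × G, ((p.1, MonoidHom.inl G K p.2) : H × (G × K)) • z ∈ X₁ ×ˢ X₂ := by
    intro z
    obtain ⟨h, hh, hu⟩ := h2.fX z.2
    obtain ⟨g, hg, gu⟩ := h1.fX (((1, h) : G × H) • z.1)
    refine ⟨(h, g), ⟨?_, hh⟩, ?_⟩
    · show ((g, h) : G × H) • z.1 ∈ X₁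
      simp only [smul_smul, Prod.mk_mul_mk, mul_one, one_mul] at hg
      exact hg
    · rintro ⟨h', g'⟩ ⟨k1, k2⟩
      have e1 : h' = h := hu h' k2
      subst e1
      have e2 : g' = g := by
        apply gu
        show ((g', 1) : G × H) • ((1, h') : G × H) • z.1 ∈ X₁
        rw [smul_smul, Prod.mk_mul_mk, mul_one, one_mul]
        exact k1
      rw [e2]
  have hF2 : ∀ z : Ω₁ × Ω₂, ∃! p : H × K, ((p.1, MonoidHom.inr G K p.2) : H × (G × K)) • z ∈ Y₁ ×ˢ Y₂ := by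
    intro z
    obtain ⟨h, hh, hu⟩ := h1.fY z.1
    obtain ⟨k, hk, ku⟩ := h2.fY (((h, 1) : H × K) • z.2)
    refine ⟨(h, k), ⟨hh, ?_⟩, ?_⟩
    · show ((h, k) : H × K) • z.2 ∈ Y₂
      simp only [smul_smul, Prod.mk_mul_mk, mul_one, one_mul] at hk
      exact hk
    · rintro ⟨h', k'⟩ ⟨k1, k2⟩
      have e1 : h' = h := hu h' k1
      subst e1
      have e2 : k' = k := by
        apply ku
        show ((1, k') : H × K) • ((h', 1) : H × K) • z.2 ∈ Y₂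
        rw [smul_smul, Prod.mk_mul_mk, mul_one, one_mul]
        exact k2
      rw [e2]
  have e1 := quot_measure mp mD hD (MonoidHom.inl G K) mF1 hF1
  have e2 := quot_measure mp mD hD (MonoidHom.inr G K) mF2 hF2
  rw [Measure.prod_prod] at e1 e2
  have hm : ∀ a : H × (G × K), Measurable fun z : Ω₁ × Ω₂ => a • z := fun a => (mp a).measurable
  have p1 := h1.posX
  have p2 := h2.posX
  refine ⟨(Prod.snd ⁻¹' X₂ : Set (Ω₁ × Ω₂)), inferInstance, mD.standardBorel, iD, (μ₁.prod μ₂).comap Subtype.val,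
    Subtype.val ⁻¹' ⋃ h : H, {z | ((h, 1) : H × (G × K)) • z ∈ X₁ ×ˢ X₂},
    Subtype.val ⁻¹' ⋃ h : H, {z | ((h, 1) : H × (G × K)) • z ∈ Y₁ ×ˢ Y₂}, ⟨?_, ?_, ?_, ?_, ?_, ?_, ?_, ?_⟩, ?_⟩
  · intro h0
    rw [h0] at e1
    simp only [Measure.coe_zero, Pi.zero_apply] at e1
    exact mul_ne_zero p1 p2 e1.symm
  · exact fun a => qAct_mp mp mD hD a
  · exact measurable_subtype_coe (MeasurableSet.iUnion fun h => hm (h, 1) mF1)
  · exact measurable_subtype_coe (MeasurableSet.iUnion fun h => hm (h, 1) mF2)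
  · exact fun d => quot_fund hD (MonoidHom.inl G K) hF1 d
  · exact fun d => quot_fund hD (MonoidHom.inr G K) hF2 d
  · rw [e1]
    exact ENNReal.mul_ne_top h1.tX h2.tX
  · rw [e2]
    exact ENNReal.mul_ne_top h1.tY h2.tY
  · rw [e1, e2, ENNReal.toReal_mul, ENNReal.toReal_mul, div_mul_div_comm]

end Pool.Agent.Lib.MP_a3a010_al
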