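import Pool.Agent.Lib.MP_a3a010_al.Basic

/-!
# The set of indices is convex
-/

namespace Pool.Agent.Lib.MP_a3a010_al

open MeasureTheory Set

private theorem Conv_image {A C : Type} [TopologicalSpace A] [MeasurableSpace A] [BorelSpace A] [TopologicalSpace C] {f : A → C}
    (hf : Topology.IsOpenEmbedding f) {s : Set A} (hs : MeasurableSet s) : MeasurableSet[borel C] (f '' s) := by
  borelize C
  exact hf.measurableEmbedding.measurableSet_image.2 hs

private theorem Conv_borel {A B : Type} [TopologicalSpace A] [TopologicalSpace B] [MeasurableSpace A] [BorelSpace A]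
    [MeasurableSpace B] [BorelSpace B] : BorelSpace (A ⊕ B) := by
  constructor
  apply le_antisymm
  · intro s hs
    obtain ⟨h1, h2⟩ := measurableSet_sum_iff.1 hs
    have e1 : MeasurableSet[borel (A ⊕ B)] (Sum.inl '' (Sum.inl ⁻¹' s)) := Conv_image Topology.IsOpenEmbedding.inl h1
    have e2 : MeasurableSet[borel (A ⊕ B)] (Sum.inr '' (Sum.inr ⁻¹' s)) := Conv_image Topology.IsOpenEmbedding.inr h2
    have e3 : s = Sum.inl '' (Sum.inl ⁻¹' s) ∪ Sum.inr '' (Sum.inr ⁻¹' s) := by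
      ext x
      cases x <;> simp
    rw [e3]
    exact @MeasurableSet.union _ (borel (A ⊕ B)) _ _ e1 e2
  · refine MeasurableSpace.generateFrom_le fun s hs => ?_
    have hs' : IsOpen s := hs
    exact measurableSet_sum_iff.2 ⟨(hs'.preimage continuous_inl).measurableSet, (hs'.preimage continuous_inr).measurableSet⟩

/-- The disjoint union of two standard Borel spaces is standard Borel (`upgradeStandardBorel` for both, the topology of the sum,
`PolishSpace` by `inferInstance`; the Borel sets of the sum: `measurableSet_sum_iff`). -/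
theorem sum_standardBorel (A B : Type) [MeasurableSpace A] [MeasurableSpace B] [StandardBorelSpace A] [StandardBorelSpace B] :
    StandardBorelSpace (A ⊕ B) := by
  obtain ⟨t1, b1, p1⟩ := StandardBorelSpace.polish (α := A)
  obtain ⟨t2, b2, p2⟩ := StandardBorelSpace.polish (α := B)
  exact ⟨instTopologicalSpaceSum, Conv_borel, inferInstance⟩

private theorem Conv_inl {A B : Type} {X₁ : Set A} {X₂ : Set B} :
    (Sum.inl ⁻¹' (Sum.inl '' X₁ ∪ Sum.inr '' X₂) : Set A) = X₁ := by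
  ext x
  simp

private theorem Conv_inr {A B : Type} {X₁ : Set A} {X₂ : Set B} :
    (Sum.inr ⁻¹' (Sum.inl '' X₁ ∪ Sum.inr '' X₂) : Set B) = X₂ := by
  ext x
  simp

private theorem Conv_apply {A B : Type} [MeasurableSpace A] [MeasurableSpace B] (μ₁ : Measure A) (μ₂ : Measure B) (a : ENNReal)
    {X₁ : Set A} {X₂ : Set B} (h1 : MeasurableSet X₁) (h2 : MeasurableSet X₂) :
    (μ₁.map Sum.inl + a • μ₂.map Sum.inr : Measure (A ⊕ B)) (Sum.inl '' X₁ ∪ Sum.inr '' X₂) = μ₁ X₁ + a * μ₂ X₂ := by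
  have h3 : MeasurableSet (Sum.inl '' X₁ ∪ Sum.inr '' X₂ : Set (A ⊕ B)) := h1.inl_image.union h2.inr_image
  rw [Measure.add_apply, Measure.smul_apply, Measure.map_apply measurable_inl h3, Measure.map_apply measurable_inr h3,
    Conv_inl, Conv_inr, smul_eq_mul]

private theorem Conv_fund {K A B : Type} [Group K] {L : Type} (u : L → K) [MulAction K A] [MulAction K B] {X₁ : Set A} {X₂ : Set B}
    (h1 : ∀ ω : A, ∃! g : L, u g • ω ∈ X₁) (h2 : ∀ ω : B, ∃! g : L, u g • ω ∈ X₂) (ω : A ⊕ B) :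
    ∃! g : L, u g • ω ∈ Sum.inl '' X₁ ∪ Sum.inr '' X₂ := by
  cases ω with
  | inl ω =>
    have e : ∀ g : L, u g • (Sum.inl ω : A ⊕ B) ∈ Sum.inl '' X₁ ∪ Sum.inr '' X₂ ↔ u g • ω ∈ X₁ := by
      intro g
      rw [Sum.smul_inl]
      simp
    simpa only [e] using h1 ω
  | inr ω =>
    have e : ∀ g : L, u g • (Sum.inr ω : A ⊕ B) ∈ Sum.inl '' X₁ ∪ Sum.inr '' X₂ ↔ u g • ω ∈ X₂ := by
      intro g
      rw [Sum.smul_inr]
      simp
    simpa only [e] using h2 ω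

private theorem Conv_mp {K A B : Type} [Group K] [MulAction K A] [MulAction K B] [MeasurableSpace A] [MeasurableSpace B]
    {μ₁ : Measure A} {μ₂ : Measure B} (a : ENNReal) (k : K) (h1 : MeasurePreserving (fun ω : A => k • ω) μ₁ μ₁)
    (h2 : MeasurePreserving (fun ω : B => k • ω) μ₂ μ₂) :
    MeasurePreserving (fun ω : A ⊕ B => k • ω) (μ₁.map Sum.inl + a • μ₂.map Sum.inr) (μ₁.map Sum.inl + a • μ₂.map Sum.inr) := by
  have hm : Measurable fun ω : A ⊕ B => k • ω := by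
    refine measurable_fun_sum ?_ ?_
    · exact measurable_inl.comp h1.measurable
    · exact measurable_inr.comp h2.measurable
  refine ⟨hm, ?_⟩
  rw [Measure.map_add _ _ hm, Measure.map_smul, Measure.map_map hm measurable_inl, Measure.map_map hm measurable_inr]
  have e1 : (fun ω : A ⊕ B => k • ω) ∘ Sum.inl = Sum.inl ∘ fun ω : A => k • ω := rfl
  have e2 : (fun ω : A ⊕ B => k • ω) ∘ Sum.inr = Sum.inr ∘ fun ω : B => k • ω := rfl
  rw [e1, e2, ← Measure.map_map measurable_inl h1.measurable, ← Measure.map_map measurable_inr h2.measurable, h1.map_eq,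
    h2.map_eq]

theorem HasSIndex.convex {G H : Type} [Group G] [Group H] [Countable G] [Countable H] {c d e : ℝ}
    (hc : HasSIndex G H c) (hd : HasSIndex G H d) (h1 : c ≤ e) (h2 : e ≤ d) : HasSIndex G H e := by
  rcases h1.eq_or_lt with rfl | h1
  · exact hc
  rcases h2.eq_or_lt with rfl | h2
  · exact hd
  obtain ⟨Ω₁, i1, i2, i3, μ₁, X₁, Y₁, s1, rfl⟩ := hc
  obtain ⟨Ω₂, j1, j2, j3, μ₂, X₂, Y₂, s2, rfl⟩ := hd
  have x1 : 0 < (μ₁ X₁).toReal := ENNReal.toReal_pos s1.posX s1.tX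
  have y1 : 0 < (μ₁ Y₁).toReal := ENNReal.toReal_pos s1.posY s1.tY
  have x2 : 0 < (μ₂ X₂).toReal := ENNReal.toReal_pos s2.posX s2.tX
  have y2 : 0 < (μ₂ Y₂).toReal := ENNReal.toReal_pos s2.posY s2.tY
  rw [div_lt_iff₀ y1] at h1
  rw [lt_div_iff₀ y2] at h2
  obtain ⟨t, ht⟩ : ∃ t, t = (e * (μ₁ Y₁).toReal - (μ₁ X₁).toReal) / ((μ₂ X₂).toReal - e * (μ₂ Y₂).toReal) := ⟨_, rfl⟩
  have ht0 : 0 < t := by
    rw [ht]
    exact div_pos (by linarith) (by linarith)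
  have ht1 : t * ((μ₂ X₂).toReal - e * (μ₂ Y₂).toReal) = e * (μ₁ Y₁).toReal - (μ₁ X₁).toReal := by
    rw [ht]
    exact div_mul_cancel₀ _ (by linarith)
  have key : ∀ (Z₁ : Set Ω₁) (Z₂ : Set Ω₂), μ₁ Z₁ ≠ ⊤ → μ₂ Z₂ ≠ ⊤ →
      μ₁ Z₁ + ENNReal.ofReal t * μ₂ Z₂ ≠ ⊤ ∧
        (μ₁ Z₁ + ENNReal.ofReal t * μ₂ Z₂).toReal = (μ₁ Z₁).toReal + t * (μ₂ Z₂).toReal := by
    intro Z₁ Z₂ f1 f2
    have f3 : ENNReal.ofReal t * μ₂ Z₂ ≠ ⊤ := ENNReal.mul_ne_top ENNReal.ofReal_ne_top f2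
    refine ⟨ENNReal.add_ne_top.2 ⟨f1, f3⟩, ?_⟩
    rw [ENNReal.toReal_add f1 f3, ENNReal.toReal_mul, ENNReal.toReal_ofReal ht0.le]
  have hX := Conv_apply μ₁ μ₂ (ENNReal.ofReal t) s1.mX s2.mX
  have hY := Conv_apply μ₁ μ₂ (ENNReal.ofReal t) s1.mY s2.mY
  obtain ⟨kX1, kX2⟩ := key X₁ X₂ s1.tX s2.tX
  obtain ⟨kY1, kY2⟩ := key Y₁ Y₂ s1.tY s2.tY
  refine ⟨Ω₁ ⊕ Ω₂, inferInstance, sum_standardBorel Ω₁ Ω₂, inferInstance,
    μ₁.map Sum.inl + ENNReal.ofReal t • μ₂.map Sum.inr, Sum.inl '' X₁ ∪ Sum.inr '' X₂, Sum.inl '' Y₁ ∪ Sum.inr '' Y₂,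
    ⟨?_, fun a => Conv_mp _ a (s1.mp a) (s2.mp a), s1.mX.inl_image.union s2.mX.inr_image,
      s1.mY.inl_image.union s2.mY.inr_image, Conv_fund (fun g : G => ((g, 1) : G × H)) s1.fX s2.fX,
      Conv_fund (fun h : H => ((1, h) : G × H)) s1.fY s2.fY, by rw [hX]; exact kX1, by rw [hY]; exact kY1⟩, ?_⟩
  · intro h0
    rw [h0] at hX
    have h3 : μ₁ X₁ = 0 := by
      have h4 : μ₁ X₁ + ENNReal.ofReal t * μ₂ X₂ = 0 := by rw [← hX]; rfl
      exact (add_eq_zero.1 h4).1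
    exact s1.posX h3
  · rw [hX, hY, kX2, kY2, eq_div_iff (by positivity)]
    linarith

end Pool.Agent.Lib.MP_a3a010_al
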