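import Mathlib

/-!
# Measure couplings: definitions (MP_a3a010)

`Coupl G H μ X Y`: `μ` is a non-zero measure on `Ω`, preserved by the action of `G × H`, `X` is a measurable fundamental
domain (up to null sets) of `G × {1}`, `Y` of `{1} × H`, both of finite measure. `HasIndex G H c`: there is a measure coupling
between `G` and `H`, on a standard Borel space, of index `c = μ X / μ Y`. `SCoupl`, `HasSIndex`: the same with fundamental
domains in the exact sense.
-/

namespace Pool.Agent.Lib.MP_a3a010_al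

open MeasureTheory Set

/-- A measure coupling between `G` and `H` (fundamental domains up to null sets). -/
structure Coupl (G H : Type) [Group G] [Group H] {Ω : Type} [MeasurableSpace Ω] [MulAction (G × H) Ω]
    (μ : Measure Ω) (X Y : Set Ω) : Prop where
  ne : μ ≠ 0
  mp : ∀ a : G × H, MeasurePreserving (fun ω : Ω => a • ω) μ μ
  mX : MeasurableSet X
  mY : MeasurableSet Y
  fX : ∀ᵐ ω ∂μ, ∃! g : G, ((g, 1) : G × H) • ω ∈ X
  fY : ∀ᵐ ω ∂μ, ∃! h : H, ((1, h) : G × H) • ω ∈ Y
  tX : μ X ≠ ⊤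
  tY : μ Y ≠ ⊤

/-- There is a measure coupling of index `c` between `G` and `H`. -/
def HasIndex (G H : Type) [Group G] [Group H] (c : ℝ) : Prop :=
  ∃ (Ω : Type) (_ : MeasurableSpace Ω) (_ : StandardBorelSpace Ω) (_ : MulAction (G × H) Ω) (μ : Measure Ω)
    (X Y : Set Ω), Coupl G H μ X Y ∧ c = (μ X).toReal / (μ Y).toReal

/-- A measure coupling between `G` and `H` with exact fundamental domains. -/
structure SCoupl (G H : Type) [Group G] [Group H] {Ω : Type} [MeasurableSpace Ω] [MulAction (G × H) Ω]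
    (μ : Measure Ω) (X Y : Set Ω) : Prop where
  ne : μ ≠ 0
  mp : ∀ a : G × H, MeasurePreserving (fun ω : Ω => a • ω) μ μ
  mX : MeasurableSet X
  mY : MeasurableSet Y
  fX : ∀ ω, ∃! g : G, ((g, 1) : G × H) • ω ∈ X
  fY : ∀ ω, ∃! h : H, ((1, h) : G × H) • ω ∈ Y
  tX : μ X ≠ ⊤
  tY : μ Y ≠ ⊤

/-- There is an exact measure coupling of index `c` between `G` and `H`. -/
def HasSIndex (G H : Type) [Group G] [Group H] (c : ℝ) : Prop :=
  ∃ (Ω : Type) (_ : MeasurableSpace Ω) (_ : StandardBorelSpace Ω) (_ : MulAction (G × H) Ω) (μ : Measure Ω)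
    (X Y : Set Ω), SCoupl G H μ X Y ∧ c = (μ X).toReal / (μ Y).toReal

theorem HasSIndex.hasIndex {G H : Type} [Group G] [Group H] {c : ℝ} (h : HasSIndex G H c) : HasIndex G H c := by
  obtain ⟨Ω, i1, i2, i3, μ, X, Y, hc, rfl⟩ := h
  exact ⟨Ω, i1, i2, i3, μ, X, Y, ⟨hc.ne, hc.mp, hc.mX, hc.mY, Filter.Eventually.of_forall hc.fX,
    Filter.Eventually.of_forall hc.fY, hc.tX, hc.tY⟩, rfl⟩

end Pool.Agent.Lib.MP_a3a010_al
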