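import Pool.Agent.Lib.MP_a3a010_al.Basic

/-!
# Self-couplings: the trivial one, and the one given by an injective endomorphism with image of finite index

The coupling is `G` itself with the counting measure and the action `(a, b) • x = f a * x * b⁻¹`; the fundamental domains are a
right transversal of `f.range` and `{1}`.
-/

namespace Pool.Agent.Lib.MP_a3a010_al

open MeasureTheory Set

private theorem FinIx_count {Ω : Type} [MeasurableSpace Ω] [DiscreteMeasurableSpace Ω] (e : Ω ≃ Ω) :
    MeasurePreserving (fun x => e x) (Measure.count : Measure Ω) Measure.count := by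
  refine ⟨Measurable.of_discrete, ?_⟩
  ext s hs
  rw [Measure.map_apply Measurable.of_discrete hs, Measure.count_apply .of_discrete, Measure.count_apply hs]
  have h1 : (fun x => e x) ⁻¹' s = e.symm '' s := (e.symm.image_eq_preimage_symm s).symm
  rw [h1, e.symm.injective.encard_image]

theorem hasSIndex_endo {G : Type} [Group G] [Countable G] (f : G →* G) (hf : Function.Injective f)
    (hn : f.range.index ≠ 0) : HasSIndex G G (f.range.index : ℝ) := by
  let m : MeasurableSpace G := ⊤
  have hd : DiscreteMeasurableSpace G := ⟨fun _ => trivial⟩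
  have hfi : f.range.FiniteIndex := ⟨hn⟩
  obtain ⟨T, hT, -⟩ := Subgroup.exists_isComplement_right f.range 1
  let act : MulAction (G × G) G :=
    { smul := fun a x => f a.1 * x * a.2⁻¹
      one_smul := fun x => by
        show f 1 * x * 1⁻¹ = x
        simp
      mul_smul := fun a b x => by
        show f (a.1 * b.1) * x * (a.2 * b.2)⁻¹ = f a.1 * (f b.1 * x * b.2⁻¹) * a.2⁻¹
        rw [map_mul]
        group }
  have hs : ∀ (a : G × G) (x : G), a • x = f a.1 * x * a.2⁻¹ := fun _ _ => rfl
  have hcT : (Measure.count : Measure G) T = (f.range.index : ENNReal) := by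
    rw [Measure.count_apply .of_discrete, hT.encard_right]
    rfl
  have hc1 : (Measure.count : Measure G) {1} = 1 := Measure.count_singleton 1
  refine ⟨G, m, inferInstance, act, Measure.count, T, {1}, ⟨?_, fun a => ?_, .of_discrete, .of_discrete, fun x => ?_,
    fun x => ?_, ?_, ?_⟩, ?_⟩
  · intro h0
    rw [h0] at hc1
    simp at hc1
  · exact FinIx_count (MulAction.toPerm a)
  · obtain ⟨t, ⟨b, hb⟩, hu⟩ := Subgroup.isComplement_iff_existsUnique_mul_inv_mem.1 hT x
    have hb' : f b = x * (t : G)⁻¹ := hb
    refine ⟨b⁻¹, ?_, fun g hg => ?_⟩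
    · show ((b⁻¹, 1) : G × G) • x ∈ T
      rw [hs, map_inv, hb']
      have : (x * (t : G)⁻¹)⁻¹ * x * (1 : G)⁻¹ = t := by group
      rw [this]
      exact t.2
    · have hg' : f g * x * (1 : G)⁻¹ ∈ T := hg
      have h1 := hu ⟨f g * x * (1 : G)⁻¹, hg'⟩ ⟨g⁻¹, by rw [map_inv]; group⟩
      have h2 : f g * x * (1 : G)⁻¹ = t := congrArg Subtype.val h1
      apply hf
      rw [map_inv, hb', ← h2]
      group
  · refine ⟨x, ?_, fun b hb => ?_⟩
    · show ((1, x) : G × G) • x ∈ ({1} : Set G)
      rw [hs, mem_singleton_iff, map_one]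
      group
    · have hb' : f 1 * x * b⁻¹ = 1 := hb
      rw [map_one, one_mul] at hb'
      exact (mul_inv_eq_one.1 hb').symm
  · rw [hcT]
    exact ENNReal.natCast_ne_top _
  · rw [hc1]
    exact ENNReal.one_ne_top
  · rw [hcT, hc1, ENNReal.toReal_natCast, ENNReal.toReal_one, div_one]

theorem hasSIndex_one (G : Type) [Group G] [Countable G] : HasSIndex G G 1 := by
  have h := hasSIndex_endo (MonoidHom.id G) Function.injective_id (by
    have : (MonoidHom.id G).range = ⊤ := MonoidHom.range_eq_top.2 fun x => ⟨x, rfl⟩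
    rw [this, Subgroup.index_top]
    exact one_ne_zero)
  have h2 : (MonoidHom.id G).range = ⊤ := MonoidHom.range_eq_top.2 fun x => ⟨x, rfl⟩
  rw [h2, Subgroup.index_top] at h
  simpa using h

end Pool.Agent.Lib.MP_a3a010_al
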