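import Pool.Agent.Lib.MP_a3a010_al.Defs

/-!
# From almost everywhere to exact fundamental domains

PROOF of `hasSIndex_of`. Let `W₀ = {ω | (∃! g, (g,1) • ω ∈ X) ∧ ∃! h, (1,h) • ω ∈ Y}`: measurable (`∃!` over a countable type:
`MeasurableSet.iUnion`, `MeasurableSet.iInter` after `ExistsUnique`; the map `ω ↦ a • ω` is measurable: `(hc.mp a).measurable`)
and of full measure. `W = ⋂ a : G × H, {ω | a • ω ∈ W₀}` is measurable, of full measure (`ae_all_iff`,
`(hc.mp a).quasiMeasurePreserving.ae`), and invariant. On `Ω' = ↥W` (standard Borel: `MeasurableSet.standardBorel`) take the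
restricted action `a • w = ⟨a • w.1, _⟩`, `μ' = μ.comap Subtype.val`, `X' = Subtype.val ⁻¹' X`, `Y' = Subtype.val ⁻¹' Y`:
`μ' X' = μ (X ∩ W) = μ X` (`comap_subtype_coe_apply` or `MeasurableEmbedding.comap_apply`, `measure_inter_conull` or
`measure_congr`).
-/

namespace Pool.Agent.Lib.MP_a3a010_al

open MeasureTheory Set

private theorem Strict_eu {Ω ι : Type} [MeasurableSpace Ω] [Countable ι] {s : ι → Set Ω}
    (hs : ∀ i, MeasurableSet (s i)) : MeasurableSet {ω | ∃! i, ω ∈ s i} := by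
  have h : {ω | ∃! i, ω ∈ s i} = ⋃ i, (s i ∩ ⋂ j, {ω | ω ∈ s j → j = i}) := by
    ext ω
    simp only [mem_ofPred_eq, ExistsUnique, mem_iUnion, mem_inter_iff, mem_iInter]
  rw [h]
  refine MeasurableSet.iUnion fun i => (hs i).inter (MeasurableSet.iInter fun j => ?_)
  by_cases hj : j = i
  · have : {ω | ω ∈ s j → j = i} = univ := by
      ext ω
      simp [hj]
    rw [this]
    exact MeasurableSet.univ
  · have : {ω | ω ∈ s j → j = i} = (s j)ᶜ := by
      ext ω
      simp [hj]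
    rw [this]
    exact (hs j).compl

theorem hasSIndex_of {G H : Type} [Group G] [Group H] [Countable G] [Countable H] {c : ℝ} (h : HasIndex G H c) :
    HasSIndex G H c := by
  obtain ⟨Ω, i1, i2, i3, μ, X, Y, hc, rfl⟩ := h
  obtain ⟨W₀, hW₀⟩ : ∃ W₀ : Set Ω, W₀ = {ω | ∃! g : G, ω ∈ (fun ω : Ω => ((g, 1) : G × H) • ω) ⁻¹' X} ∩
      {ω | ∃! h : H, ω ∈ (fun ω : Ω => ((1, h) : G × H) • ω) ⁻¹' Y} := ⟨_, rfl⟩
  have mW₀ : MeasurableSet W₀ := by
    rw [hW₀]
    exact (Strict_eu fun g => (hc.mp (g, 1)).measurable hc.mX).inter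
      (Strict_eu fun h => (hc.mp (1, h)).measurable hc.mY)
  have aW₀ : ∀ᵐ ω ∂μ, ω ∈ W₀ := by
    filter_upwards [hc.fX, hc.fY] with ω h1 h2
    rw [hW₀]
    exact ⟨h1, h2⟩
  obtain ⟨W, hW⟩ : ∃ W : Set Ω, W = ⋂ a : G × H, (fun ω : Ω => a • ω) ⁻¹' W₀ := ⟨_, rfl⟩
  have mW : MeasurableSet W := by
    rw [hW]
    exact MeasurableSet.iInter fun a => (hc.mp a).measurable mW₀
  have aW : ∀ᵐ ω ∂μ, ω ∈ W := by
    have h1 : ∀ᵐ ω ∂μ, ∀ a : G × H, a • ω ∈ W₀ :=
      ae_all_iff.2 fun a => (hc.mp a).quasiMeasurePreserving.ae aW₀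
    filter_upwards [h1] with ω h2
    rw [hW]
    exact mem_iInter.2 h2
  have nW : μ Wᶜ = 0 := mem_ae_iff.1 aW
  have inv : ∀ (a : G × H) (ω : Ω), ω ∈ W → a • ω ∈ W := by
    intro a ω hω
    rw [hW] at hω ⊢
    refine mem_iInter.2 fun b => ?_
    have h1 := mem_iInter.1 hω (b * a)
    rw [mem_preimage, mul_smul] at h1
    exact h1
  have inv' : ∀ (a : G × H) (ω : Ω), a • ω ∈ W → ω ∈ W := by
    intro a ω hω
    have h1 := inv a⁻¹ _ hω
    rwa [inv_smul_smul] at h1
  have hsub : W ⊆ W₀ := by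
    intro ω hω
    rw [hW] at hω
    have h1 := mem_iInter.1 hω 1
    rw [mem_preimage, one_smul] at h1
    exact h1
  let act : MulAction (G × H) W :=
    { smul := fun a w => ⟨a • w.1, inv a w.1 w.2⟩
      one_smul := fun w => Subtype.ext (one_smul _ _)
      mul_smul := fun a b w => Subtype.ext (mul_smul _ _ _) }
  have hval : ∀ (a : G × H) (w : W), (a • w).1 = a • w.1 := fun _ _ => rfl
  have hcoe : ∀ t : Set W, (μ.comap Subtype.val) t = μ (Subtype.val '' t) :=
    fun t => comap_subtype_coe_apply mW μ t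
  have hX' : ∀ Z : Set Ω, (μ.comap (Subtype.val : W → Ω)) (Subtype.val ⁻¹' Z) = μ Z := by
    intro Z
    rw [hcoe, Subtype.image_preimage_coe, inter_comm]
    exact measure_inter_conull nW
  refine ⟨W, inferInstance, mW.standardBorel, act, μ.comap Subtype.val, Subtype.val ⁻¹' X,
    Subtype.val ⁻¹' Y, ⟨?_, ?_, measurable_subtype_coe hc.mX, measurable_subtype_coe hc.mY, ?_, ?_, ?_, ?_⟩, ?_⟩
  · intro h0
    apply hc.ne
    rw [← Measure.measure_univ_eq_zero, ← hX' univ, h0]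
    rfl
  · intro a
    have hm : Measurable (fun w : W => a • w) :=
      ((hc.mp a).measurable.comp measurable_subtype_coe).subtype_mk
    refine ⟨hm, ?_⟩
    ext t ht
    rw [Measure.map_apply hm ht, hcoe, hcoe]
    have h1 : Subtype.val '' ((fun w : W => a • w) ⁻¹' t) = (fun ω : Ω => a • ω) ⁻¹' (Subtype.val '' t) := by
      ext ω
      constructor
      · rintro ⟨w, hw, rfl⟩
        exact ⟨a • w, hw, rfl⟩
      · rintro ⟨w, hw, hwe⟩
        have h2 : a • ω ∈ W := by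
          have h3 := w.2
          rwa [hwe] at h3
        refine ⟨⟨ω, inv' a ω h2⟩, ?_, rfl⟩
        have h4 : a • (⟨ω, inv' a ω h2⟩ : W) = w := Subtype.ext hwe.symm
        change a • (⟨ω, inv' a ω h2⟩ : W) ∈ t
        rw [h4]
        exact hw
    rw [h1]
    exact (hc.mp a).measure_preimage (mW.subtype_image ht).nullMeasurableSet
  · intro w
    have h1 := hsub w.2
    rw [hW₀] at h1
    exact h1.1
  · intro w
    have h1 := hsub w.2
    rw [hW₀] at h1
    exact h1.2
  · rw [hX']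
    exact hc.tX
  · rw [hX']
    exact hc.tY
  · rw [hX', hX']

end Pool.Agent.Lib.MP_a3a010_al
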