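import Pool.Agent.Lib.MP_a3a010_al.Comp
import Pool.Agent.Lib.MP_a3a010_al.Conv
import Pool.Agent.Lib.MP_a3a010_al.FinIx
import Pool.Agent.Lib.MP_a3a010_al.Strict

/-!
# The set of indices of the measure couplings between two groups
-/

namespace Pool.Agent.Lib.MP_a3a010_al

open Set

theorem hasIndex_iff {G H : Type} [Group G] [Group H] [Countable G] [Countable H] {c : ℝ} :
    HasIndex G H c ↔ HasSIndex G H c := ⟨hasSIndex_of, HasSIndex.hasIndex⟩

variable {G H : Type} [Group G] [Group H] [Countable G] [Countable H]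

theorem HasIndex.pos {c : ℝ} (h : HasIndex G H c) : 0 < c := (hasSIndex_of h).pos

theorem HasIndex.symm {c : ℝ} (h : HasIndex G H c) : HasIndex H G c⁻¹ := (hasSIndex_of h).symm.hasIndex

theorem HasIndex.comp {K : Type} [Group K] [Countable K] {c d : ℝ} (h : HasIndex G H c) (h' : HasIndex H K d) :
    HasIndex G K (c * d) := ((hasSIndex_of h).comp (hasSIndex_of h')).hasIndex

theorem HasIndex.convex {c d e : ℝ} (h : HasIndex G H c) (h' : HasIndex G H d) (h1 : c ≤ e) (h2 : e ≤ d) :
    HasIndex G H e := ((hasSIndex_of h).convex (hasSIndex_of h') h1 h2).hasIndex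

theorem hasIndex_one (G : Type) [Group G] [Countable G] : HasIndex G G 1 := (hasSIndex_one G).hasIndex

theorem HasIndex.pow {c : ℝ} (h : HasIndex G G c) (n : ℕ) : HasIndex G G (c ^ n) := by
  induction n with
  | zero =>
    rw [pow_zero]
    exact hasIndex_one G
  | succ n ih =>
    rw [pow_succ]
    exact ih.comp h

/-- An index greater than one gives all positive indices. -/
theorem HasIndex.all_of_lt {c e : ℝ} (h : HasIndex G G c) (hc : 1 < c) (he : 0 < e) : HasIndex G G e := by
  obtain ⟨n, hn⟩ := pow_unbounded_of_one_lt e hc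
  obtain ⟨m, hm⟩ := pow_unbounded_of_one_lt e⁻¹ hc
  have h1 := (h.pow m).symm
  refine h1.convex (h.pow n) ?_ hn.le
  rw [inv_le_comm₀ (pow_pos (by linarith) m) he]
  exact hm.le

theorem HasIndex.all {c e : ℝ} (h : HasIndex G G c) (hc : c ≠ 1) (he : 0 < e) : HasIndex G G e := by
  rcases lt_or_gt_of_ne hc with h1 | h1
  · exact h.symm.all_of_lt ((one_lt_inv₀ h.pos).2 h1) he
  · exact h.all_of_lt h1 he

/-- A self-coupling of the second group of index different from one gives all indices. -/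
theorem HasIndex.all_right {c d e : ℝ} (h : HasIndex G H c) (h' : HasIndex H H d) (hd : d ≠ 1) (he : 0 < e) :
    HasIndex G H e := by
  have h1 := h.comp (h'.all hd (div_pos he h.pos))
  rwa [mul_div_cancel₀ _ h.pos.ne'] at h1

theorem HasIndex.all_left {c d e : ℝ} (h : HasIndex G H c) (h' : HasIndex G G d) (hd : d ≠ 1) (he : 0 < e) :
    HasIndex G H e := by
  have h1 := (h'.all hd (div_pos he h.pos)).comp h
  rwa [div_mul_cancel₀ _ h.pos.ne'] at h1

/-- Two different indices give a self-coupling of index different from one. -/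
theorem HasIndex.self_of_ne {c d : ℝ} (h : HasIndex G H c) (h' : HasIndex G H d) (hne : c ≠ d) :
    ∃ e, HasIndex G G e ∧ e ≠ 1 := by
  refine ⟨c * d⁻¹, h.comp h'.symm, fun h1 => hne ?_⟩
  have h2 := h'.pos
  field_simp at h1
  exact h1

theorem HasIndex.self_of_self {c d : ℝ} (h : HasIndex G H c) (h' : HasIndex H H d) (hd : d ≠ 1) :
    ∃ e, HasIndex G G e ∧ e ≠ 1 :=
  (h.all_right (e := c + 1) h' hd (by linarith [h.pos])).self_of_ne h (by linarith)

/-- The sets of indices of measure equivalent groups. -/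
theorem index_sets {c₀ : ℝ} (h : HasIndex G H c₀) :
    ({c | HasIndex G H c} = {c₀} ∧ {c | HasIndex G G c} = {1} ∧ {c | HasIndex H H c} = {1}) ∨
      ({c | HasIndex G H c} = Ioi 0 ∧ {c | HasIndex G G c} = Ioi 0 ∧ {c | HasIndex H H c} = Ioi 0) := by
  by_cases hG : ∃ e, HasIndex G G e ∧ e ≠ 1
  · obtain ⟨e, he, he1⟩ := hG
    obtain ⟨d, hd, hd1⟩ := h.symm.self_of_self he he1
    refine Or.inr ⟨?_, ?_, ?_⟩
    · ext c
      exact ⟨fun hc => hc.pos, fun hc => h.all_left he he1 hc⟩
    · ext c
      exact ⟨fun hc => hc.pos, fun hc => he.all he1 hc⟩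
    · ext c
      exact ⟨fun hc => hc.pos, fun hc => hd.all hd1 hc⟩
  · refine Or.inl ⟨?_, ?_, ?_⟩
    · ext c
      refine ⟨fun hc => ?_, fun hc => ?_⟩
      · by_contra hne
        exact hG (HasIndex.self_of_ne hc h hne)
      · have h1 : c = c₀ := hc
        rw [h1]
        exact h
    · ext c
      refine ⟨fun hc => ?_, fun hc => ?_⟩
      · by_contra hne
        exact hG ⟨c, hc, hne⟩
      · have h1 : c = 1 := hc
        rw [h1]
        exact hasIndex_one G
    · ext c
      refine ⟨fun hc => ?_, fun hc => ?_⟩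
      · by_contra hne
        exact hG (h.self_of_self hc hne)
      · have h1 : c = 1 := hc
        rw [h1]
        exact hasIndex_one H

theorem index_sets_endo {c₀ : ℝ} (h : HasIndex G H c₀) (f : H →* H) (hf : Function.Injective f)
    (hn : 1 < f.range.index) : {c | HasIndex G H c} = Ioi 0 := by
  have h1 : HasIndex H H (f.range.index : ℝ) := (hasSIndex_endo f hf (by omega)).hasIndex
  have h2 : (f.range.index : ℝ) ≠ 1 := by
    intro h3
    have h4 : f.range.index = 1 := by exact_mod_cast h3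
    omega
  ext c
  exact ⟨fun hc => hc.pos, fun hc => h.all_right h1 h2 hc⟩

/-- Splitting of the proportionality question. -/
theorem split (𝒜 : ∀ (G : Type) [Group G], Prop) (ρ : ∀ (G : Type) [Group G], ℝ) :
    (∀ (G H : Type) [Group G] [Group H] [Countable G] [Countable H], 𝒜 G → 𝒜 H →
      ∀ c : ℝ, HasIndex G H c → ρ G = c * ρ H) ↔
    (∀ (G : Type) [Group G] [Countable G], 𝒜 G → HasIndex G G 2 → ρ G = 0) ∧
    (∀ (G H : Type) [Group G] [Group H] [Countable G] [Countable H], 𝒜 G → 𝒜 H →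
      (∀ c : ℝ, HasIndex G G c → c = 1) → (∀ c : ℝ, HasIndex H H c → c = 1) →
      (∃ c : ℝ, HasIndex G H c) → ∃ c : ℝ, HasIndex G H c ∧ ρ G = c * ρ H) := by
  constructor
  · intro h
    refine ⟨fun G _ _ hG h2 => ?_, fun G H _ _ _ _ hG hH _ _ ⟨c, hc⟩ => ⟨c, hc, h G H hG hH c hc⟩⟩
    have h3 := h G G hG hG 2 h2
    linarith
  · rintro ⟨h1, h2⟩ G H _ _ _ _ hG hH c hc
    rcases index_sets hc with ⟨e0, e1, e2⟩ | ⟨_, e1, e2⟩
    · obtain ⟨d, hd, hρ⟩ := h2 G H hG hH (fun d hd => by
          have h3 : d ∈ {c | HasIndex G G c} := hd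
          rw [e1] at h3
          exact h3) (fun d hd => by
          have h3 : d ∈ {c | HasIndex H H c} := hd
          rw [e2] at h3
          exact h3) ⟨c, hc⟩
      have h4 : d ∈ {c | HasIndex G H c} := hd
      rw [e0] at h4
      have h5 : d = c := h4
      rw [h5] at hρ
      exact hρ
    · have h3 : (2 : ℝ) ∈ {c | HasIndex G G c} := by
        rw [e1]
        exact (two_pos : (0 : ℝ) < 2)
      have h4 : (2 : ℝ) ∈ {c | HasIndex H H c} := by
        rw [e2]
        exact (two_pos : (0 : ℝ) < 2)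
      rw [h1 G hG h3, h1 H hH h4, mul_zero]

end Pool.Agent.Lib.MP_a3a010_al
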