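import Pool.Agent.Lib.MP_a3a010_al.Basic

/-!
# The action of `L` on the quotient by `H`, realised on a fundamental domain `D` of `H`
-/

namespace Pool.Agent.Lib.MP_a3a010_al

open MeasureTheory Set

section quot

variable {H L Z : Type} [Group H] [Group L] [MulAction (H × L) Z] {D : Set Z}

/-- The element of `H` which moves `z` into `D`. -/
noncomputable def tau (hD : ∀ z : Z, ∃! h : H, ((h, 1) : H × L) • z ∈ D) (z : Z) : H := Classical.choose (hD z)

theorem tau_mem (hD : ∀ z : Z, ∃! h : H, ((h, 1) : H × L) • z ∈ D) (z : Z) : ((tau hD z, 1) : H × L) • z ∈ D :=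
  (Classical.choose_spec (hD z)).1

theorem tau_eq (hD : ∀ z : Z, ∃! h : H, ((h, 1) : H × L) • z ∈ D) {z : Z} {h : H} (h1 : ((h, 1) : H × L) • z ∈ D) :
    h = tau hD z :=
  (Classical.choose_spec (hD z)).2 h h1

/-- The image of `d` under `l`. -/
noncomputable def qsm (hD : ∀ z : Z, ∃! h : H, ((h, 1) : H × L) • z ∈ D) (l : L) (d : D) : D :=
  ⟨((tau hD (((1, l) : H × L) • d.1), 1) : H × L) • ((1, l) : H × L) • d.1, tau_mem hD _⟩

theorem qsm_val (hD : ∀ z : Z, ∃! h : H, ((h, 1) : H × L) • z ∈ D) (l : L) (d : D) :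
    (qsm hD l d).1 = ((tau hD (((1, l) : H × L) • d.1), l) : H × L) • d.1 := by
  show ((tau hD (((1, l) : H × L) • d.1), 1) : H × L) • ((1, l) : H × L) • d.1 = _
  rw [smul_smul, Prod.mk_mul_mk, mul_one, one_mul]

theorem qsm_eq (hD : ∀ z : Z, ∃! h : H, ((h, 1) : H × L) • z ∈ D) {l : L} {d : D} {h : H}
    (h1 : ((h, l) : H × L) • d.1 ∈ D) : (qsm hD l d).1 = ((h, l) : H × L) • d.1 := by
  have h2 : ((h, 1) : H × L) • ((1, l) : H × L) • d.1 ∈ D := by
    rw [smul_smul, Prod.mk_mul_mk, mul_one, one_mul]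
    exact h1
  rw [qsm_val, ← tau_eq hD h2]

/-- The action of `L` on `D`. -/
@[instance_reducible]
noncomputable def qAct (hD : ∀ z : Z, ∃! h : H, ((h, 1) : H × L) • z ∈ D) : MulAction L D where
  smul l d := qsm hD l d
  one_smul d := by
    apply Subtype.ext
    show (qsm hD 1 d).1 = d.1
    have h1 : ((1, 1) : H × L) • d.1 = d.1 := one_smul (H × L) d.1
    have h2 : ((1, 1) : H × L) • d.1 ∈ D := by
      rw [h1]
      exact d.2
    rw [qsm_eq hD h2, h1]
  mul_smul l m d := by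
    apply Subtype.ext
    show (qsm hD (l * m) d).1 = (qsm hD l (qsm hD m d)).1
    have h1 := qsm_val hD m d
    have h2 := qsm_val hD l (qsm hD m d)
    rw [h1, smul_smul, Prod.mk_mul_mk] at h2
    have h3 : ((tau hD (((1, l) : H × L) • (((tau hD (((1, m) : H × L) • d.1), m) : H × L) • d.1)) *
        tau hD (((1, m) : H × L) • d.1), l * m) : H × L) • d.1 ∈ D := by
      rw [← h2]
      exact (qsm hD l (qsm hD m d)).2
    rw [qsm_eq hD h3, h2]

variable [MeasurableSpace Z] [Countable H]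

/-- A set meeting every orbit of `H` at most once has the measure of its saturation in `D`. -/
theorem swap_measure {ν : Measure Z} (mp : ∀ a : H × L, MeasurePreserving (fun z : Z => a • z) ν ν)
    (mD : MeasurableSet D) (hD : ∀ z : Z, ∃! h : H, ((h, 1) : H × L) • z ∈ D) {F : Set Z} (mF : MeasurableSet F)
    (hF : ∀ z ∈ F, ∀ h : H, ((h, 1) : H × L) • z ∈ F → h = 1) :
    ν (D ∩ ⋃ h : H, {z | ((h, 1) : H × L) • z ∈ F}) = ν F := by
  have hm : ∀ h : H, Measurable fun z : Z => ((h, 1) : H × L) • z := fun h => (mp (h, 1)).measurable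
  have hAB : ∀ h : H, D ∩ {z | ((h, 1) : H × L) • z ∈ F} =
      (fun z : Z => ((h, 1) : H × L) • z) ⁻¹' (F ∩ {w | ((h⁻¹, 1) : H × L) • w ∈ D}) := by
    intro h
    ext z
    have e : ((h⁻¹, 1) : H × L) • ((h, 1) : H × L) • z = z := by
      rw [smul_smul, Prod.mk_mul_mk, inv_mul_cancel, one_mul]
      exact one_smul (H × L) z
    simp only [mem_inter_iff, mem_ofPred_eq, mem_preimage, e]
    exact and_comm
  have mB : ∀ h : H, MeasurableSet (F ∩ {w | ((h⁻¹, 1) : H × L) • w ∈ D}) := fun h => mF.inter (hm h⁻¹ mD)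
  have mA : ∀ h : H, MeasurableSet (D ∩ {z | ((h, 1) : H × L) • z ∈ F}) := fun h => mD.inter (hm h mF)
  have dA : Pairwise (Function.onFun Disjoint fun h : H => D ∩ {z | ((h, 1) : H × L) • z ∈ F}) := by
    intro h k hk
    refine Set.disjoint_left.2 ?_
    rintro z ⟨_, h1⟩ ⟨_, h2⟩
    apply hk
    have e : ((k * h⁻¹, 1) : H × L) • ((h, 1) : H × L) • z = ((k, 1) : H × L) • z := by
      rw [smul_smul, Prod.mk_mul_mk, inv_mul_cancel_right, one_mul]
    have h3 := hF _ h1 (k * h⁻¹) (by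
      rw [e]
      exact h2)
    exact (mul_inv_eq_one.1 h3).symm
  have dB : Pairwise (Function.onFun Disjoint fun h : H => F ∩ {w | ((h⁻¹, 1) : H × L) • w ∈ D}) := by
    intro h k hk
    refine Set.disjoint_left.2 ?_
    rintro z ⟨_, h1⟩ ⟨_, h2⟩
    apply hk
    exact inv_injective ((hD z).unique h1 h2)
  have hB : F = ⋃ h : H, F ∩ {w | ((h⁻¹, 1) : H × L) • w ∈ D} := by
    ext z
    simp only [mem_iUnion, mem_inter_iff, mem_ofPred_eq]
    constructor
    · intro hz
      obtain ⟨h, h1, _⟩ := hD z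
      exact ⟨h⁻¹, hz, by rw [inv_inv]; exact h1⟩
    · rintro ⟨_, hz, _⟩
      exact hz
  rw [inter_iUnion, measure_iUnion dA mA]
  conv_rhs => rw [hB, measure_iUnion dB mB]
  congr 1
  funext h
  rw [hAB h, (mp (h, 1)).measure_preimage (mB h).nullMeasurableSet]

theorem comap_val_apply (mD : MeasurableSet D) (ν : Measure Z) (S : Set Z) :
    (ν.comap (Subtype.val : D → Z)) (Subtype.val ⁻¹' S) = ν (D ∩ S) := by
  rw [(MeasurableEmbedding.subtype_coe mD).comap_apply, Subtype.image_preimage_coe]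

/-- The action of `L` on `D` preserves the measure. -/
theorem qAct_mp {ν : Measure Z} (mp : ∀ a : H × L, MeasurePreserving (fun z : Z => a • z) ν ν)
    (mD : MeasurableSet D) (hD : ∀ z : Z, ∃! h : H, ((h, 1) : H × L) • z ∈ D) (l : L) :
    MeasurePreserving (fun d : D => qsm hD l d) (ν.comap Subtype.val) (ν.comap Subtype.val) := by
  have hm : ∀ a : H × L, Measurable fun z : Z => a • z := fun a => (mp a).measurable
  have key : ∀ S : Set Z, (fun d : D => qsm hD l d) ⁻¹' (Subtype.val ⁻¹' S) =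
      Subtype.val ⁻¹' ⋃ h : H, {z | ((h, 1) : H × L) • z ∈ (fun z : Z => ((1, l) : H × L) • z) ⁻¹' (D ∩ S)} := by
    intro S
    ext d
    simp only [mem_preimage, mem_iUnion, mem_ofPred_eq, smul_smul, Prod.mk_mul_mk, one_mul, mul_one]
    constructor
    · intro h
      rw [qsm_val] at h
      have h2 := (qsm hD l d).2
      rw [qsm_val] at h2
      exact ⟨_, h2, h⟩
    · rintro ⟨h, h1, h2⟩
      rw [qsm_eq hD h1]
      exact h2
  have hmeas : Measurable fun d : D => qsm hD l d := by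
    rintro _ ⟨S, hS, rfl⟩
    rw [key]
    exact measurable_subtype_coe (MeasurableSet.iUnion fun h => hm (h, 1) (hm (1, l) (mD.inter hS)))
  refine ⟨hmeas, ?_⟩
  ext T hT
  rw [Measure.map_apply hmeas hT]
  obtain ⟨S, hS, rfl⟩ := hT
  rw [key, comap_val_apply mD, comap_val_apply mD,
    swap_measure mp mD hD (hm (1, l) (mD.inter hS)), ← (mp (1, l)).measure_preimage (mD.inter hS).nullMeasurableSet]
  intro z hz h hh
  have h1 : ((1, l) : H × L) • z ∈ D := hz.1
  have h2 : ((h, 1) : H × L) • ((1, l) : H × L) • z ∈ D := by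
    have h3 : ((1, l) : H × L) • ((h, 1) : H × L) • z ∈ D := hh.1
    rw [smul_smul, Prod.mk_mul_mk, mul_one, one_mul] at h3 ⊢
    exact h3
  refine (hD (((1, l) : H × L) • z)).unique h2 ?_
  have h4 : ((1, 1) : H × L) • ((1, l) : H × L) • z = ((1, l) : H × L) • z := one_smul (H × L) _
  rw [h4]
  exact h1

variable {M : Type} [Group M]

omit [MeasurableSpace Z] [Countable H] in
/-- Fundamental domains of the quotient. -/
theorem quot_fund (hD : ∀ z : Z, ∃! h : H, ((h, 1) : H × L) • z ∈ D) (ι : M →* L) {F : Set Z}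
    (hF : ∀ z : Z, ∃! p : H × M, ((p.1, ι p.2) : H × L) • z ∈ F) (d : D) :
    ∃! m : M, qsm hD (ι m) d ∈ (Subtype.val ⁻¹' ⋃ h : H, {z | ((h, 1) : H × L) • z ∈ F} : Set D) := by
  obtain ⟨⟨h, m⟩, h1, h2⟩ := hF d.1
  refine ⟨m, ?_, ?_⟩
  · simp only [mem_preimage, mem_iUnion, mem_ofPred_eq]
    rw [qsm_val]
    refine ⟨h * (tau hD (((1, ι m) : H × L) • d.1))⁻¹, ?_⟩
    rw [smul_smul, Prod.mk_mul_mk, inv_mul_cancel_right, one_mul]
    exact h1
  · intro m' hm'
    simp only [mem_preimage, mem_iUnion, mem_ofPred_eq] at hm'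
    obtain ⟨h', hh'⟩ := hm'
    rw [qsm_val, smul_smul, Prod.mk_mul_mk, one_mul] at hh'
    exact congrArg Prod.snd (h2 (h' * tau hD (((1, ι m') : H × L) • d.1), m') hh')

theorem quot_measure {ν : Measure Z} (mp : ∀ a : H × L, MeasurePreserving (fun z : Z => a • z) ν ν)
    (mD : MeasurableSet D) (hD : ∀ z : Z, ∃! h : H, ((h, 1) : H × L) • z ∈ D) (ι : M →* L) {F : Set Z}
    (mF : MeasurableSet F) (hF : ∀ z : Z, ∃! p : H × M, ((p.1, ι p.2) : H × L) • z ∈ F) :
    (ν.comap (Subtype.val : D → Z)) (Subtype.val ⁻¹' ⋃ h : H, {z | ((h, 1) : H × L) • z ∈ F}) = ν F := by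
  rw [comap_val_apply mD, swap_measure mp mD hD mF]
  intro z hz h hh
  have h1 : ((((h, 1) : H × M).1, ι ((h, 1) : H × M).2) : H × L) • z ∈ F := by
    show ((h, ι 1) : H × L) • z ∈ F
    rw [map_one]
    exact hh
  have h2 : ((((1, 1) : H × M).1, ι ((1, 1) : H × M).2) : H × L) • z ∈ F := by
    show ((1, ι 1) : H × L) • z ∈ F
    rw [map_one]
    have e : ((1, 1) : H × L) • z = z := one_smul (H × L) z
    rw [e]
    exact hz
  exact congrArg Prod.fst ((hF z).unique h1 h2)

end quot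

end Pool.Agent.Lib.MP_a3a010_al
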